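import Pool.Agent.H268R2.HL.LevMain
import Pool.Agent.H268R2.HL.LevDefs

/-! Levels in arrangements of lines covered by `m` envelopes. -/

set_option autoImplicit false

namespace Pool.Agent.Results.MP_a08d0a_co.Envelopes

open Pool.Agent.H268R2.HL

/-- If `n` lines, no two equal and no three concurrent, are covered by `m` families each of whose
members appears on the lower or on the upper envelope of its family, then every level has
complexity at most `(4 m - 2) n`. -/
theorem result {n : ℕ} (a B : Fin n → ℝ) (hS : Simple a B) (m : ℕ)
    (F : Fin m → Finset (Fin n)) (hF : ∀ c, OnEnvelope a B (F c)) (hcov : ∀ i, ∃ c, i ∈ F c)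
    (k : ℕ) (hk : k < n) : psi a B k ≤ ((4 * m - 2) * n : ℕ) :=
  level_main hS F hF hcov hk

end Pool.Agent.Results.MP_a08d0a_co.Envelopes
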