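import Pool.Agent.H189R2.Iid.Final

/-! The complexity of a single level in an arrangement of `n` independent random lines with a
common law. -/

set_option autoImplicit false

namespace Pool.Agent.Results.MP_a08d0a_co.IidLevel

open Finset MeasureTheory Filter Pool.Agent.H189R2.Lev Pool.Agent.H189R2.Iid
open scoped ENNReal Topology

/-- no two of the lines `y = a l * x + B l` coincide and no three of them pass through a common
point -/
def Simple {n : ℕ} (a B : Fin n → ℝ) : Prop :=
  (∀ i j, i ≠ j → a i = a j → B i ≠ B j) ∧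
    ∀ i j l, i ≠ j → i ≠ l → j ≠ l → ¬ ∃ x, ht a B i x = ht a B j x ∧ ht a B i x = ht a B l x

/-- pairs `i < j` of non-parallel lines whose crossing point has exactly `k` lines strictly below -/
def crossings {n : ℕ} (a B : Fin n → ℝ) (k : ℕ) : Set (Fin n × Fin n) :=
  {q | q.1 < q.2 ∧ a q.1 ≠ a q.2 ∧
    {l | ht a B l (cr a B q.1 q.2) < ht a B q.1 (cr a B q.1 q.2)}.ncard = k}

/-- the `k`-level as a function of `x`: the smallest height with more than `k` lines weakly below,
i.e. the `(k+1)`-st lowest line above `x` -/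
noncomputable def level {n : ℕ} (a B : Fin n → ℝ) (k : ℕ) (x : ℝ) : ℝ :=
  sInf {y | k < {l | ht a B l x ≤ y}.ncard}

/-- complexity of the `k`-level: number of abscissae near which the level does not follow a single
line -/
noncomputable def psi {n : ℕ} (a B : Fin n → ℝ) (k : ℕ) : ℕ∞ :=
  {x : ℝ | ¬ ∃ l, level a B k =ᶠ[𝓝 x] ht a B l}.encard

/-- at a crossing of a simple arrangement exactly two lines pass -/
theorem count3 {n : ℕ} {a B : Fin n → ℝ} (hS : Simple a B) {i j : Fin n} (hij : i ≠ j) {x : ℝ}
    (hx : ht a B i x = ht a B j x) :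
    {l | ht a B i x < ht a B l x}.ncard + {l | ht a B l x < ht a B i x}.ncard + 2 = n := by
  classical
  have e1 : {l | ht a B i x < ht a B l x} =
      ((univ.filter (fun l => ht a B i x < ht a B l x) : Finset _) : Set _) := by
    ext l; simp
  have e2 : {l | ht a B l x < ht a B i x} =
      ((univ.filter (fun l => ht a B l x < ht a B i x) : Finset _) : Set _) := by
    ext l; simp
  rw [e1, e2, Set.ncard_coe_finset, Set.ncard_coe_finset]
  have h1 := Finset.card_filter_add_card_filter_not (s := univ)
    (fun l => ht a B i x < ht a B l x)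
  have h2 := Finset.card_filter_add_card_filter_not
    (s := univ.filter (fun l => ¬ ht a B i x < ht a B l x))
    (fun l => ht a B l x < ht a B i x)
  have h3 : (univ.filter (fun l => ¬ ht a B i x < ht a B l x)).filter
      (fun l => ht a B l x < ht a B i x) = univ.filter (fun l => ht a B l x < ht a B i x) := by
    ext l
    simp only [mem_filter, mem_univ, true_and, not_lt]
    exact ⟨fun h => h.2, fun h => ⟨h.le, h⟩⟩
  have h4 : (univ.filter (fun l => ¬ ht a B i x < ht a B l x)).filter
      (fun l => ¬ ht a B l x < ht a B i x) = {i, j} := by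
    ext l
    simp only [mem_filter, mem_univ, true_and, not_lt, mem_insert, mem_singleton]
    constructor
    · rintro ⟨h5, h6⟩
      by_contra hcon
      push Not at hcon
      exact hS.2 i j l hij (Ne.symm hcon.1) (Ne.symm hcon.2) ⟨x, hx, le_antisymm h6 h5⟩
    · rintro (rfl | rfl)
      · exact ⟨le_rfl, le_rfl⟩
      · exact ⟨hx.ge, hx.le⟩
  rw [h3, h4, card_pair hij] at h2
  simp only [card_univ, Fintype.card_fin] at h1
  omega

theorem level_eq {n : ℕ} {a B : Fin n → ℝ} {k : ℕ} {x y : ℝ}
    (h1 : {l | ht a B l x < y}.ncard ≤ k) (h2 : k < {l | ht a B l x ≤ y}.ncard) :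
    level a B k x = y := by
  apply IsLeast.csInf_eq
  refine ⟨h2, ?_⟩
  intro y' hy'
  rw [Set.mem_ofPred_eq] at hy'
  by_contra hcon
  push Not at hcon
  have := Set.ncard_le_ncard (s := {l | ht a B l x ≤ y'}) (t := {l | ht a B l x < y})
    (fun l hl => lt_of_le_of_lt hl hcon) (Set.toFinite _)
  omega

theorem exists_level {n : ℕ} (a B : Fin n → ℝ) {k : ℕ} (hk : k < n) (x : ℝ) :
    ∃ i, {l | ht a B l x < ht a B i x}.ncard ≤ k ∧ k < {l | ht a B l x ≤ ht a B i x}.ncard := by
  classical
  obtain ⟨s, hs1, hs2⟩ := exists_stat (univ : Finset (Fin n)) (fun l => -ht a B l x) (k := k)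
    (by simpa using hk)
  have h : ∃ i, ht a B i x = -s := by
    by_contra hcon
    push Not at hcon
    have hsub : univ.filter (fun l => s ≤ -ht a B l x) ⊆ univ.filter (fun l => s < -ht a B l x) := by
      intro l hl
      rw [mem_filter] at hl ⊢
      refine ⟨hl.1, lt_of_le_of_ne hl.2 (fun h => hcon l ?_)⟩
      linarith
    have := card_le_card hsub
    omega
  obtain ⟨i, hi⟩ := h
  refine ⟨i, ?_, ?_⟩
  · rw [← Set.ncard_coe_finset] at hs1
    refine le_trans (Set.ncard_le_ncard ?_ (Set.toFinite _)) hs1
    intro l hl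
    rw [Set.mem_ofPred_eq, hi] at hl
    simp only [coe_filter, mem_univ, true_and, Set.mem_ofPred_eq]
    linarith
  · rw [← Set.ncard_coe_finset] at hs2
    refine lt_of_lt_of_le hs2 (Set.ncard_le_ncard ?_ (Set.toFinite _))
    intro l hl
    simp only [coe_filter, mem_univ, true_and, Set.mem_ofPred_eq] at hl
    rw [Set.mem_ofPred_eq, hi]
    linarith

theorem psi_le {n : ℕ} {a B : Fin n → ℝ} (hS : Simple a B) {k : ℕ} (hk : k < n) :
    psi a B k ≤ ((crossings a B k).ncard + (if k = 0 then 0 else (crossings a B (k - 1)).ncard) :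
      ℕ) := by
  classical
  set C' : Set (Fin n × Fin n) := if k = 0 then ∅ else crossings a B (k - 1) with hC'
  have hC'n : C'.ncard = if k = 0 then 0 else (crossings a B (k - 1)).ncard := by
    rw [hC']
    split_ifs <;> simp
  have hsub : {x : ℝ | ¬ ∃ l, level a B k =ᶠ[𝓝 x] ht a B l} ⊆
      (fun q : Fin n × Fin n => cr a B q.1 q.2) '' (crossings a B k ∪ C') := by
    intro x hx
    rw [Set.mem_ofPred_eq] at hx
    obtain ⟨i, hi1, hi2⟩ := exists_level a B hk x
    have hcont : ∀ l, Continuous (ht a B l) := by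
      intro l; unfold ht; fun_prop
    -- another line passes through the point
    have hex : ∃ j, j ≠ i ∧ ht a B j x = ht a B i x := by
      by_contra hcon
      push Not at hcon
      apply hx
      refine ⟨i, ?_⟩
      have hev : ∀ᶠ x' in 𝓝 x, ∀ l ∈ (univ : Finset (Fin n)),
          (ht a B l x < ht a B i x → ht a B l x' < ht a B i x') ∧
          (ht a B i x < ht a B l x → ht a B i x' < ht a B l x') := by
        rw [Filter.eventually_all_finset]
        intro l _
        rw [Filter.eventually_and]
        constructor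
        · by_cases h : ht a B l x < ht a B i x
          · filter_upwards [((hcont l).tendsto x).eventually_lt ((hcont i).tendsto x) h]
              with x' hx' _
            exact hx'
          · exact Eventually.of_forall (fun _ h' => absurd h' h)
        · by_cases h : ht a B i x < ht a B l x
          · filter_upwards [((hcont i).tendsto x).eventually_lt ((hcont l).tendsto x) h]
              with x' hx' _
            exact hx'
          · exact Eventually.of_forall (fun _ h' => absurd h' h)
      filter_upwards [hev] with x' hx'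
      apply level_eq
      · refine le_trans (Set.ncard_le_ncard ?_ (Set.toFinite _)) hi1
        intro l hl
        rw [Set.mem_ofPred_eq] at hl ⊢
        by_contra h
        push Not at h
        rcases h.lt_or_eq with h | h
        · have := (hx' l (mem_univ l)).2 h
          linarith
        · by_cases hli : l = i
          · subst hli; exact lt_irrefl _ hl
          · exact hcon l hli h.symm
      · refine lt_of_lt_of_le hi2 (Set.ncard_le_ncard ?_ (Set.toFinite _))
        intro l hl
        rw [Set.mem_ofPred_eq] at hl ⊢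
        rcases hl.lt_or_eq with h | h
        · exact ((hx' l (mem_univ l)).1 h).le
        · by_cases hli : l = i
          · subst hli; exact le_rfl
          · exact absurd h (hcon l hli)
    obtain ⟨j, hji, hj⟩ := hex
    have haij : a i ≠ a j := by
      intro h
      apply hS.1 i j (Ne.symm hji) h
      unfold ht at hj
      rw [h] at hj
      linarith
    have hcrx : x = cr a B i j := by
      unfold cr
      rw [eq_div_iff (sub_ne_zero.mpr haij)]
      unfold ht at hj
      linarith
    have hc3 := count3 hS (Ne.symm hji) hj.symm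
    have hle : {l | ht a B l x ≤ ht a B i x}.ncard = {l | ht a B l x < ht a B i x}.ncard + 2 := by
      have e : {l | ht a B l x ≤ ht a B i x} = {l | ht a B i x < ht a B l x}ᶜ := by
        ext l
        simp
      have e' := Set.ncard_compl ({l | ht a B i x < ht a B l x}) (Set.toFinite _)
      rw [← e] at e'
      simp only [Nat.card_eq_fintype_card, Fintype.card_fin] at e'
      omega
    have hkk : {l | ht a B l x < ht a B i x}.ncard = k ∨
        (k ≠ 0 ∧ {l | ht a B l x < ht a B i x}.ncard = k - 1) := by omega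
    have hmem : ∀ q : Fin n × Fin n, q.1 < q.2 → a q.1 ≠ a q.2 → x = cr a B q.1 q.2 →
        ht a B q.1 x = ht a B i x → q ∈ crossings a B k ∪ C' := by
      intro q h1 h2 h3 h4
      rcases hkk with h | ⟨h0, h⟩
      · left
        refine ⟨h1, h2, ?_⟩
        rw [← h3, h4]
        exact h
      · right
        rw [hC', if_neg h0]
        refine ⟨h1, h2, ?_⟩
        rw [← h3, h4]
        exact h
    rcases lt_or_gt_of_ne hji with h | h
    · refine ⟨(j, i), hmem (j, i) h haij.symm ?_ hj, ?_⟩
      · rw [hcrx]; exact cr_symm _ _ _ _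
      · rw [hcrx]; exact cr_symm _ _ _ _
    · exact ⟨(i, j), hmem (i, j) h haij hcrx rfl, hcrx.symm⟩
  calc psi a B k ≤ ((fun q : Fin n × Fin n => cr a B q.1 q.2) '' (crossings a B k ∪ C')).encard :=
        Set.encard_le_encard hsub
    _ ≤ (crossings a B k ∪ C').encard := Set.encard_image_le _ _
    _ ≤ (crossings a B k).encard + C'.encard := Set.encard_union_le _ _
    _ = _ := by
        rw [← (Set.toFinite (crossings a B k)).cast_ncard_eq, ← (Set.toFinite C').cast_ncard_eq,
          hC'n]
        push_cast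
        rfl

variable {n : ℕ}

/-- the slopes -/
def sl (P : Fin n → ℝ × ℝ) : Fin n → ℝ := fun l => (P l).1

/-- the intercepts -/
def ic (P : Fin n → ℝ × ℝ) : Fin n → ℝ := fun l => (P l).2

theorem simple_of_GP {P : Fin n → ℝ × ℝ} (hP : GP P) : Simple (sl P) (ic P) := by
  refine ⟨fun i j hij h => absurd (hP.1 i j h) hij, ?_⟩
  rintro i j l hij hil hjl ⟨x, e1, e2⟩
  have key : ∀ u v : Fin n, u ≠ v → ht (sl P) (ic P) u x = ht (sl P) (ic P) v x →
      (P v).1 < (P u).1 → X2 (P u) (P v) = x := by
    intro u v _ h hlt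
    unfold ht sl ic at h
    unfold X2
    rw [div_eq_iff (by linarith)]
    linarith
  have h1 : (P i).1 ≠ (P j).1 := fun h => hij (hP.1 i j h)
  have h2 : (P i).1 ≠ (P l).1 := fun h => hil (hP.1 i l h)
  rcases lt_or_gt_of_ne h1 with h1 | h1 <;> rcases lt_or_gt_of_ne h2 with h2 | h2
  · have := hP.2 j i l i h1 h2 ((key j i hij.symm e1.symm h1).trans
      (key l i hil.symm e2.symm h2).symm)
    exact hjl this.1
  · have := hP.2 j i i l h1 h2 ((key j i hij.symm e1.symm h1).trans (key i l hil e2 h2).symm)
    exact hij this.1.symm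
  · have := hP.2 i j l i h1 h2 ((key i j hij e1 h1).trans (key l i hil.symm e2.symm h2).symm)
    exact hil this.1
  · have := hP.2 i j i l h1 h2 ((key i j hij e1 h1).trans (key i l hil e2 h2).symm)
    exact hjl this.2

open Classical in
theorem crossings_lev {P : Fin n → ℝ × ℝ} (k : ℕ) :
    (crossings (sl P) (ic P) k).ncard ≤ ((T P).filter (fun q => lev P q = k)).card := by
  rw [← Set.ncard_coe_finset]
  have hlev : ∀ u v : Fin n, {l | ht (sl P) (ic P) l (cr (sl P) (ic P) u v) <
      ht (sl P) (ic P) u (cr (sl P) (ic P) u v)}.ncard = lev P (u, v) := by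
    intro u v
    unfold lev
    rw [← Set.ncard_coe_finset]
    congr 1
    ext l
    simp only [coe_filter, mem_univ, true_and]
    exact Iff.rfl
  apply Set.ncard_le_ncard_of_injOn (fun q : Fin n × Fin n =>
    if (P q.2).1 < (P q.1).1 then q else (q.2, q.1))
  · rintro ⟨i, j⟩ ⟨h1, h2, h3⟩
    simp only at h1 h2 h3
    have h4 := ht_cr (B := ic P) h2
    rw [mem_coe, mem_filter, mem_T]
    simp only
    by_cases h : (P j).1 < (P i).1
    · rw [if_pos h]
      exact ⟨h, by rw [← hlev]; exact h3⟩
    · rw [if_neg h]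
      have h' : (P i).1 < (P j).1 := lt_of_le_of_ne (not_lt.mp h) h2
      refine ⟨h', ?_⟩
      rw [← hlev, cr_symm, h4]
      exact h3
  · rintro ⟨i, j⟩ ⟨h1, h2, _⟩ ⟨i', j'⟩ ⟨h1', h2', _⟩ heq
    simp only at h1 h2 h1' h2' heq
    split_ifs at heq with h h' h'
    · exact heq
    · rw [Prod.mk.injEq] at heq
      rw [heq.1, heq.2] at h1
      exact absurd h1 (lt_asymm h1')
    · rw [Prod.mk.injEq] at heq
      rw [heq.1, heq.2] at h1
      exact absurd h1 (lt_asymm h1')
    · rw [Prod.mk.injEq] at heq
      rw [heq.1, heq.2]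

/-- reflecting the lines in the axis exchanges below and above -/
theorem crossings_flip {P : Fin n → ℝ × ℝ} (hP : GP P) {k : ℕ} :
    (crossings (sl P) (ic P) k).ncard ≤
      (crossings (sl (fun l => -P l)) (ic (fun l => -P l)) (n - 2 - k)).ncard := by
  apply Set.ncard_le_ncard _ (Set.toFinite _)
  rintro ⟨i, j⟩ ⟨h1, h2, h3⟩
  simp only at h1 h2 h3
  have h4 := ht_cr (B := ic P) h2
  have h5 := count3 (simple_of_GP hP) h1.ne h4.symm
  have hcr : cr (sl (fun l => -P l)) (ic (fun l => -P l)) i j = cr (sl P) (ic P) i j := by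
    unfold cr sl ic
    simp only [Prod.fst_neg, Prod.snd_neg]
    rw [← neg_div_neg_eq]
    congr 1 <;> ring
  have hht : ∀ l x, ht (sl (fun l => -P l)) (ic (fun l => -P l)) l x =
      -ht (sl P) (ic P) l x := by
    intro l x
    unfold ht sl ic
    simp only [Prod.fst_neg, Prod.snd_neg]
    ring
  refine ⟨h1, ?_, ?_⟩
  · intro h
    apply h2
    simpa [sl] using h
  · simp only [hcr, hht, neg_lt_neg_iff]
    omega

open Classical in
theorem measurable_levcount (k : ℕ) :
    Measurable (fun P : Fin n → ℝ × ℝ => (((T P).filter (fun q => lev P q = k)).card : ℝ≥0∞)) := by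
  have m1 : ∀ i : Fin n, Measurable (fun P : Fin n → ℝ × ℝ => P i) := fun i => measurable_pi_apply i
  have hm : ∀ q : Fin n × Fin n, MeasurableSet
      {P : Fin n → ℝ × ℝ | (P q.2).1 < (P q.1).1 ∧ lev P q = k} := fun q =>
    (measurableSet_lt (m1 q.2).fst (m1 q.1).fst).inter
      ((measurable_lev q) (measurableSet_singleton k))
  have h1 : (fun P : Fin n → ℝ × ℝ => (((T P).filter (fun q => lev P q = k)).card : ℝ≥0∞)) =
      fun P => ∑ q : Fin n × Fin n,
        {P : Fin n → ℝ × ℝ | (P q.2).1 < (P q.1).1 ∧ lev P q = k}.indicator 1 P := by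
    funext P
    have : (T P).filter (fun q => lev P q = k) = univ.filter (fun q : Fin n × Fin n =>
        (P q.2).1 < (P q.1).1 ∧ lev P q = k) := by
      ext q
      rw [mem_filter, mem_T, mem_filter]
      simp
    rw [this, card_filter]
    push_cast
    apply sum_congr rfl
    intro q _
    simp [Set.indicator_apply]
  rw [h1]
  exact Finset.measurable_sum _ (fun q _ => measurable_one.indicator (hm q))

theorem LN_neg {μ : Measure (ℝ × ℝ)} (hμ : LN μ) : LN (μ.map (fun y => -y)) := by
  intro a b c hab
  have hm : MeasurableSet {y : ℝ × ℝ | a * y.1 + b * y.2 = c} :=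
    measurableSet_eq_fun ((measurable_fst.const_mul a).add (measurable_snd.const_mul b))
      measurable_const
  rw [Measure.map_apply measurable_neg hm]
  have := hμ (-a) (-b) c (by
    rcases hab with h | h
    · exact Or.inl (neg_ne_zero.mpr h)
    · exact Or.inr (neg_ne_zero.mpr h))
  refine measure_mono_null ?_ this
  intro y hy
  have hy' : a * (-y).1 + b * (-y).2 = c := hy
  show -a * y.1 + -b * y.2 = c
  rw [← hy']
  simp

/-- the expected number of crossings of a given level -/
theorem cross_bound {μ : Measure (ℝ × ℝ)} [IsProbabilityMeasure μ] (hμ : LN μ) (k : ℕ) :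
    ∫⁻ P, ((crossings (sl P) (ic P) k).ncard : ℝ≥0∞) ∂Measure.pi (fun _ : Fin n => μ) ≤
      ENNReal.ofReal (1308 * SS * n * ((min k (n - 2 - k) : ℕ) + 1) ^ (1 / 6 : ℝ)) := by
  classical
  by_cases hk : 2 * k + 2 ≤ n
  · have hmin : min k (n - 2 - k) = k := by omega
    rw [hmin]
    refine le_trans (lintegral_mono (fun P => ?_)) (level_bound hμ hk)
    exact Nat.cast_le.mpr (crossings_lev (P := P) k)
  by_cases hk2 : k + 2 ≤ n
  · have hmin : min k (n - 2 - k) = n - 2 - k := by omega
    rw [hmin]
    set μ' := μ.map (fun y => -y) with hμ'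
    have hprob : IsProbabilityMeasure μ' :=
      Measure.isProbabilityMeasure_map measurable_neg.aemeasurable
    have h1 := level_bound (LN_neg hμ) (n := n) (k := n - 2 - k) (by omega)
    have hmp : MeasurePreserving (fun (P : Fin n → ℝ × ℝ) (l : Fin n) => -P l)
        (Measure.pi (fun _ : Fin n => μ)) (Measure.pi (fun _ : Fin n => μ')) :=
      measurePreserving_pi (fun _ => μ) (fun _ => μ') (fun _ => measurable_neg.measurePreserving μ)
    rw [← hmp.lintegral_comp (measurable_levcount (n - 2 - k))] at h1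
    refine le_trans (lintegral_mono_ae ?_) h1
    filter_upwards [ae_GP hμ n] with P hP
    have h2 := (crossings_flip hP (k := k)).trans (crossings_lev (n - 2 - k))
    exact_mod_cast h2
  · have hz : ∀ᵐ P ∂Measure.pi (fun _ : Fin n => μ),
        ((crossings (sl P) (ic P) k).ncard : ℝ≥0∞) = 0 := by
      filter_upwards [ae_GP hμ n] with P hP
      have : crossings (sl P) (ic P) k = ∅ := by
        ext ⟨i, j⟩
        rw [Set.mem_empty_iff_false, iff_false]
        rintro ⟨h1, h2, h3⟩
        simp only at h1 h2 h3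
        have h5 := count3 (simple_of_GP hP) h1.ne (ht_cr (B := ic P) h2).symm
        omega
      rw [this]
      simp
    rw [lintegral_congr_ae hz, lintegral_zero]
    exact zero_le

theorem measurable_crossings (k : ℕ) :
    Measurable (fun P : Fin n → ℝ × ℝ => ((crossings (sl P) (ic P) k).ncard : ℝ≥0∞)) := by
  classical
  have m1 : ∀ i : Fin n, Measurable (fun P : Fin n → ℝ × ℝ => P i) := fun i => measurable_pi_apply i
  have hcrm : ∀ i j : Fin n, Measurable (fun P : Fin n → ℝ × ℝ => cr (sl P) (ic P) i j) := by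
    intro i j
    unfold cr sl ic
    exact ((m1 j).snd.sub (m1 i).snd).div ((m1 i).fst.sub (m1 j).fst)
  have hhtm : ∀ i j l : Fin n, Measurable
      (fun P : Fin n → ℝ × ℝ => ht (sl P) (ic P) l (cr (sl P) (ic P) i j)) := by
    intro i j l
    unfold ht
    exact ((m1 l).fst.mul (hcrm i j)).add (m1 l).snd
  have hncard : ∀ {ι : Type} [Fintype ι] (s : (Fin n → ℝ × ℝ) → ι → Prop),
      (∀ l, MeasurableSet {P | s P l}) → Measurable (fun P => {l | s P l}.ncard) := by
    intro ι _ s hs
    have h : (fun P => {l | s P l}.ncard) = fun P => ∑ l, if s P l then 1 else 0 := by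
      ext P
      have : {l | s P l} = ((univ.filter (fun l => s P l) : Finset ι) : Set ι) := by
        ext l; simp
      rw [this, Set.ncard_coe_finset, card_filter]
    rw [h]
    exact Finset.measurable_sum _ (fun l _ =>
      Measurable.ite (hs l) measurable_const measurable_const)
  have h := hncard (fun (P : Fin n → ℝ × ℝ) (q : Fin n × Fin n) => q.1 < q.2 ∧
    sl P q.1 ≠ sl P q.2 ∧ {l | ht (sl P) (ic P) l (cr (sl P) (ic P) q.1 q.2) <
      ht (sl P) (ic P) q.1 (cr (sl P) (ic P) q.1 q.2)}.ncard = k)
    (fun q => (MeasurableSet.const _).inter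
      ((measurableSet_eq_fun (m1 q.1).fst (m1 q.2).fst).compl.inter
        ((hncard (fun (P : Fin n → ℝ × ℝ) (l : Fin n) =>
          ht (sl P) (ic P) l (cr (sl P) (ic P) q.1 q.2) <
          ht (sl P) (ic P) q.1 (cr (sl P) (ic P) q.1 q.2))
          (fun l => measurableSet_lt (hhtm q.1 q.2 l) (hhtm q.1 q.2 q.1)))
          (measurableSet_singleton k))))
  exact (measurable_of_countable (fun c : ℕ => (c : ℝ≥0∞))).comp h

/-- Single levels of `n` independent random lines with an arbitrary common law (lines of the dual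
plane being null): the expected complexity of the `k`-level is `O(n (min(k, n-1-k) + 1)^(1/6))`,
with an absolute constant. -/
theorem result : ∃ C : ℝ, 0 < C ∧ ∀ (μ : Measure (ℝ × ℝ)) [IsProbabilityMeasure μ],
    (∀ a b c : ℝ, (a ≠ 0 ∨ b ≠ 0) → μ {y | a * y.1 + b * y.2 = c} = 0) → ∀ n : ℕ,
    (∀ᵐ P ∂Measure.pi (fun _ : Fin n => μ), Simple (sl P) (ic P)) ∧
    (∀ k : ℕ, ∫⁻ P, ((crossings (sl P) (ic P) k).ncard : ℝ≥0∞) ∂Measure.pi (fun _ : Fin n => μ) ≤
      ENNReal.ofReal (C * n * ((min k (n - 2 - k) : ℕ) + 1) ^ (1 / 6 : ℝ))) ∧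
    (∀ k < n, (∀ᵐ P ∂Measure.pi (fun _ : Fin n => μ), psi (sl P) (ic P) k ≤
      ((crossings (sl P) (ic P) k).ncard +
        (if k = 0 then 0 else (crossings (sl P) (ic P) (k - 1)).ncard) : ℕ)) ∧
      ∫⁻ P, (psi (sl P) (ic P) k : ℝ≥0∞) ∂Measure.pi (fun _ : Fin n => μ) ≤
        ENNReal.ofReal (C * n * ((min k (n - 1 - k) : ℕ) + 1) ^ (1 / 6 : ℝ))) := by
  have hSS := SS_ge
  refine ⟨2616 * SS, by positivity, ?_⟩
  intro μ _ hμ' n
  have hμ : LN μ := hμ'
  have hn0 : (0 : ℝ) ≤ n := Nat.cast_nonneg n
  have hsimple : ∀ᵐ P ∂Measure.pi (fun _ : Fin n => μ), Simple (sl P) (ic P) := by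
    filter_upwards [ae_GP hμ n] with P hP
    exact simple_of_GP hP
  refine ⟨hsimple, ?_, ?_⟩
  · intro k
    refine (cross_bound hμ k).trans ?_
    apply ENNReal.ofReal_le_ofReal
    have : 0 ≤ n * ((min k (n - 2 - k) : ℕ) + 1 : ℝ) ^ (1 / 6 : ℝ) := by positivity
    nlinarith
  · intro k hk
    have hpsi : ∀ᵐ P ∂Measure.pi (fun _ : Fin n => μ), psi (sl P) (ic P) k ≤
        ((crossings (sl P) (ic P) k).ncard +
          (if k = 0 then 0 else (crossings (sl P) (ic P) (k - 1)).ncard) : ℕ) := by
      filter_upwards [hsimple] with P hP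
      exact psi_le hP hk
    refine ⟨hpsi, ?_⟩
    set g : ℝ := ((min k (n - 1 - k) : ℕ) + 1 : ℝ) ^ (1 / 6 : ℝ) with hg
    have hg0 : 0 ≤ g := by positivity
    have hmono : ∀ m : ℕ, m ≤ min k (n - 1 - k) →
        1308 * SS * n * ((m : ℝ) + 1) ^ (1 / 6 : ℝ) ≤ 1308 * SS * n * g := by
      intro m hm
      apply mul_le_mul_of_nonneg_left _ (by positivity)
      apply Real.rpow_le_rpow (by positivity) _ (by norm_num)
      have : (m : ℝ) ≤ (min k (n - 1 - k) : ℕ) := Nat.cast_le.mpr hm
      linarith
    have b1 : ∫⁻ P, ((crossings (sl P) (ic P) k).ncard : ℝ≥0∞)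
        ∂Measure.pi (fun _ : Fin n => μ) ≤ ENNReal.ofReal (1308 * SS * n * g) :=
      (cross_bound hμ k).trans (ENNReal.ofReal_le_ofReal (hmono _ (by omega)))
    have b2 : ∫⁻ P, (if k = 0 then 0 else ((crossings (sl P) (ic P) (k - 1)).ncard : ℝ≥0∞))
        ∂Measure.pi (fun _ : Fin n => μ) ≤ ENNReal.ofReal (1308 * SS * n * g) := by
      split_ifs with h0
      · rw [lintegral_zero]; exact zero_le
      · exact (cross_bound hμ (k - 1)).trans (ENNReal.ofReal_le_ofReal (hmono _ (by omega)))
    calc ∫⁻ P, (psi (sl P) (ic P) k : ℝ≥0∞) ∂Measure.pi (fun _ : Fin n => μ)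
        ≤ ∫⁻ P, (((crossings (sl P) (ic P) k).ncard : ℝ≥0∞) +
          (if k = 0 then 0 else ((crossings (sl P) (ic P) (k - 1)).ncard : ℝ≥0∞)))
          ∂Measure.pi (fun _ : Fin n => μ) := by
          apply lintegral_mono_ae
          filter_upwards [hpsi] with P hP
          have h1 : (psi (sl P) (ic P) k : ℝ≥0∞) ≤ (((crossings (sl P) (ic P) k).ncard +
            (if k = 0 then 0 else (crossings (sl P) (ic P) (k - 1)).ncard) : ℕ) : ℕ∞) := by
            exact_mod_cast hP
          refine h1.trans ?_
          rw [ENat.toENNReal_coe]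
          split_ifs with h
          · simp
          · push_cast
            rfl
      _ = _ := lintegral_add_left (measurable_crossings k) _
      _ ≤ ENNReal.ofReal (1308 * SS * n * g) + ENNReal.ofReal (1308 * SS * n * g) :=
          add_le_add b1 b2
      _ = ENNReal.ofReal (2616 * SS * n * g) := by
          rw [← ENNReal.ofReal_add (by positivity) (by positivity)]
          congr 1
          ring

end Pool.Agent.Results.MP_a08d0a_co.IidLevel
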