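import Pool.Agent.H189R2.Iid.Red2
import Pool.Agent.Results.MP_a08d0a_co.IidLevel

/-! Worst-case levels from random lines: every simple arrangement of `m` lines gives a law for
which a level of `n` independent lines, `n` about `m g`, is as complex as the `g`-level of the
arrangement, times `g`. -/

set_option autoImplicit false

namespace Pool.Agent.Results.MP_a08d0a_co.IidReduction

open Finset MeasureTheory Filter Pool.Agent.H189R2.Lev Pool.Agent.H189R2.Iid
open Pool.Agent.Results.MP_a08d0a_co.IidLevel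
open scoped ENNReal Topology

variable {n : ℕ}

open Classical in
theorem crossings_ge (P : Fin n → ℝ × ℝ) (k : ℕ) :
    ((T P).filter (fun q => lev P q = k)).card ≤ (crossings (sl P) (ic P) k).ncard := by
  rw [← Set.ncard_coe_finset]
  have hlev : ∀ u v : Fin n, {l | ht (sl P) (ic P) l (cr (sl P) (ic P) u v) <
      ht (sl P) (ic P) u (cr (sl P) (ic P) u v)}.ncard = lev P (u, v) := by
    intro u v
    unfold lev
    rw [← Set.ncard_coe_finset]
    congr 1
    ext l
    simp only [coe_filter, mem_univ, true_and]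
    exact Iff.rfl
  apply Set.ncard_le_ncard_of_injOn (fun q : Fin n × Fin n =>
    if q.1 < q.2 then q else (q.2, q.1))
  · rintro ⟨i, j⟩ hq
    rw [mem_coe, mem_filter, mem_T] at hq
    obtain ⟨h1, h2⟩ := hq
    simp only at h1
    have hne : i ≠ j := by rintro rfl; exact lt_irrefl _ h1
    have hsl : sl P i ≠ sl P j := ne_of_gt h1
    simp only
    by_cases h : i < j
    · rw [if_pos h]
      exact ⟨h, hsl, by rw [hlev]; exact h2⟩
    · rw [if_neg h]
      have h' : j < i := lt_of_le_of_ne (not_lt.mp h) hne.symm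
      refine ⟨h', hsl.symm, ?_⟩
      have h4 := ht_cr (B := ic P) hsl
      simp only
      rw [cr_symm, h4, hlev]
      exact h2
  · rintro ⟨i, j⟩ hq ⟨i', j'⟩ hq' heq
    rw [mem_coe, mem_filter, mem_T] at hq hq'
    obtain ⟨h1, _⟩ := hq
    obtain ⟨h1', _⟩ := hq'
    simp only at h1 h1' heq
    split_ifs at heq with h h' h'
    · exact heq
    · rw [Prod.mk.injEq] at heq
      rw [heq.1, heq.2] at h1
      exact absurd h1 (lt_asymm h1')
    · rw [Prod.mk.injEq] at heq
      rw [heq.1, heq.2] at h1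
      exact absurd h1 (lt_asymm h1')
    · rw [Prod.mk.injEq] at heq
      rw [heq.1, heq.2]

/-- in a simple arrangement every crossing with exactly `k` lines strictly below is a vertex of the
`k`-level -/
theorem psi_ge {a B : Fin n → ℝ} (hS : Simple a B) (k : ℕ) :
    ((crossings a B k).ncard : ℕ∞) ≤ psi a B k := by
  classical
  have hinj : Set.InjOn (fun q : Fin n × Fin n => cr a B q.1 q.2) (crossings a B k) := by
    rintro ⟨i, j⟩ ⟨h1, h2, h3⟩ ⟨i', j'⟩ ⟨h1', h2', h3'⟩ heq
    simp only at h1 h2 h3 h1' h2' h3' heq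
    have e1 := ht_cr (B := B) h2
    have e2 := ht_cr (B := B) h2'
    rw [← heq] at h3' e2
    set x := cr a B i j with hx
    -- equal heights
    have hlt : ∀ u v u' v' : Fin n, ht a B v x = ht a B u x → ht a B v' x = ht a B u' x →
        u ≠ v → {l | ht a B l x < ht a B u x}.ncard = k →
        {l | ht a B l x < ht a B u' x}.ncard = k → ¬ ht a B u x < ht a B u' x := by
      intro u v u' v' f1 f2 huv f3 f4 hlt
      have hsub : insert u {l | ht a B l x < ht a B u x} ⊆ {l | ht a B l x < ht a B u' x} := by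
        intro l hl
        rcases Set.mem_insert_iff.mp hl with rfl | hl
        · exact hlt
        · exact lt_trans hl hlt
      have := Set.ncard_le_ncard hsub (Set.toFinite _)
      have hnot : u ∉ {l | ht a B l x < ht a B u x} := fun h => lt_irrefl (ht a B u x) h
      rw [Set.ncard_insert_of_notMem hnot (Set.toFinite _), f3, f4] at this
      omega
    have hy : ht a B i x = ht a B i' x :=
      le_antisymm (not_lt.mp (hlt i' j' i j e2 e1 h1'.ne h3' h3))
        (not_lt.mp (hlt i j i' j' e1 e2 h1.ne h3 h3'))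
    have hmem : ∀ l, ht a B i x = ht a B l x → l = i ∨ l = j := by
      intro l hl
      by_contra hcon
      push Not at hcon
      exact hS.2 i j l h1.ne (Ne.symm hcon.1) (Ne.symm hcon.2) ⟨x, e1.symm, hl⟩
    have m1 := hmem i' hy
    have m2 := hmem j' (hy.trans e2.symm)
    rcases m1 with rfl | rfl <;> rcases m2 with rfl | rfl
    · exact absurd h1' (lt_irrefl _)
    · rfl
    · exact absurd h1 (lt_asymm h1')
    · exact absurd h1' (lt_irrefl _)
  have hsub : (fun q : Fin n × Fin n => cr a B q.1 q.2) '' (crossings a B k) ⊆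
      {x : ℝ | ¬ ∃ l, level a B k =ᶠ[𝓝 x] ht a B l} := by
    rintro x ⟨⟨i, j⟩, ⟨h1, h2, h3⟩, rfl⟩
    simp only at h1 h2 h3 ⊢
    rw [Set.mem_ofPred_eq]
    rintro ⟨l, hl⟩
    have e1 := ht_cr (B := B) h2
    set x := cr a B i j with hx
    have hcont : ∀ l, Continuous (ht a B l) := by
      intro l; unfold ht; fun_prop
    have hev : ∀ᶠ x' in 𝓝 x, ∀ l ∈ (univ : Finset (Fin n)),
        (ht a B l x < ht a B i x → ht a B l x' < ht a B i x' ∧ ht a B l x' < ht a B j x') ∧
        (ht a B i x < ht a B l x → ht a B i x' < ht a B l x' ∧ ht a B j x' < ht a B l x') := by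
      rw [Filter.eventually_all_finset]
      intro l _
      rw [Filter.eventually_and]
      constructor
      · by_cases h : ht a B l x < ht a B i x
        · filter_upwards [((hcont l).tendsto x).eventually_lt ((hcont i).tendsto x) h,
            ((hcont l).tendsto x).eventually_lt ((hcont j).tendsto x) (by rw [e1]; exact h)]
            with x' hx' hx'' _
          exact ⟨hx', hx''⟩
        · exact Eventually.of_forall (fun _ h' => absurd h' h)
      · by_cases h : ht a B i x < ht a B l x
        · filter_upwards [((hcont i).tendsto x).eventually_lt ((hcont l).tendsto x) h,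
            ((hcont j).tendsto x).eventually_lt ((hcont l).tendsto x) (by rw [e1]; exact h)]
            with x' hx' hx'' _
          exact ⟨hx', hx''⟩
        · exact Eventually.of_forall (fun _ h' => absurd h' h)
    have hlev : ∀ᶠ x' in 𝓝 x, ht a B l x' = min (ht a B i x') (ht a B j x') := by
      filter_upwards [hev, hl] with x' hx' hl'
      rw [← hl']
      have hs : {l | ht a B l x' < min (ht a B i x') (ht a B j x')} =
          {l | ht a B l x < ht a B i x} := by
        ext l
        rw [Set.mem_ofPred_eq, Set.mem_ofPred_eq, lt_min_iff]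
        constructor
        · rintro ⟨g1, g2⟩
          by_contra hcon
          push Not at hcon
          rcases hcon.lt_or_eq with h | h
          · exact absurd g1 (lt_asymm ((hx' l (mem_univ l)).2 h).1)
          · by_cases hli : l = i
            · subst hli; exact lt_irrefl _ g1
            · by_cases hlj : l = j
              · subst hlj; exact lt_irrefl _ g2
              · exact hS.2 i j l h1.ne (Ne.symm hli) (Ne.symm hlj) ⟨x, e1.symm, h⟩
        · intro h
          exact (hx' l (mem_univ l)).1 h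
      apply level_eq
      · rw [hs, h3]
      · have hsub2 : ∃ u, ht a B u x' = min (ht a B i x') (ht a B j x') := by
          rcases le_total (ht a B i x') (ht a B j x') with h | h
          · exact ⟨i, (min_eq_left h).symm⟩
          · exact ⟨j, (min_eq_right h).symm⟩
        obtain ⟨u, hu⟩ := hsub2
        have hsub3 : insert u {l | ht a B l x' < min (ht a B i x') (ht a B j x')} ⊆
            {l | ht a B l x' ≤ min (ht a B i x') (ht a B j x')} := by
          intro l hl
          rcases Set.mem_insert_iff.mp hl with rfl | hl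
          · exact hu.le
          · rw [Set.mem_ofPred_eq] at hl ⊢
            exact hl.le
        have hnot : u ∉ {l | ht a B l x' < min (ht a B i x') (ht a B j x')} := by
          intro h
          rw [Set.mem_ofPred_eq] at h
          exact absurd hu (ne_of_lt h)
        have := Set.ncard_le_ncard hsub3 (Set.toFinite _)
        rw [Set.ncard_insert_of_notMem hnot (Set.toFinite _), hs, h3] at this
        omega
    obtain ⟨δ, hδ0, hδ⟩ := Metric.eventually_nhds_iff.mp hlev
    have p1 := hδ (y := x + δ / 2) (by rw [Real.dist_eq]; rw [abs_lt]; constructor <;> linarith)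
    have p2 := hδ (y := x - δ / 2) (by rw [Real.dist_eq]; rw [abs_lt]; constructor <;> linarith)
    have p3 := hδ (y := x) (by rw [dist_self]; exact hδ0)
    rw [e1, min_self] at p3
    have q1 : ∀ u, ht a B u (x + δ / 2) = ht a B u x + a u * (δ / 2) := by
      intro u; unfold ht; ring
    have q2 : ∀ u, ht a B u (x - δ / 2) = ht a B u x - a u * (δ / 2) := by
      intro u; unfold ht; ring
    rw [q1, q1, q1, e1, p3, min_add_add_left] at p1
    rw [q2, q2, q2, e1, p3, min_sub_sub_left] at p2
    rcases lt_or_gt_of_ne h2 with h | h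
    · have g1 : a i * (δ / 2) < a j * (δ / 2) := by nlinarith
      rw [min_eq_left g1.le] at p1
      rw [max_eq_right g1.le] at p2
      linarith
    · have g1 : a j * (δ / 2) < a i * (δ / 2) := by nlinarith
      rw [min_eq_right g1.le] at p1
      rw [max_eq_left g1.le] at p2
      linarith
  calc ((crossings a B k).ncard : ℕ∞) = (crossings a B k).encard :=
        (Set.toFinite (crossings a B k)).cast_ncard_eq
    _ = ((fun q : Fin n × Fin n => cr a B q.1 q.2) '' (crossings a B k)).encard :=
        (hinj.encard_image).symm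
    _ ≤ _ := Set.encard_le_encard hsub

/-- Worst case to average case. For every simple arrangement of `m` lines there is a law (with null
lines) such that for all `g` and all `n`, `k` with `n` about `m g` and `k / n` about `g / m`, the
expected complexity of the `k`-level of `n` independent random lines is at least `c g` times the
complexity of the `g`-level of the arrangement. Hence a bound `K n (k + 1) ^ β` for independent
lines gives the bound `C K m g ^ (2 β)` for all simple arrangements. -/
theorem result : ∃ c : ℝ, 0 < c ∧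
    (∀ (m : ℕ) (a B : Fin m → ℝ), Simple a B →
      ∃ μ : Measure (ℝ × ℝ), IsProbabilityMeasure μ ∧
        (∀ u v w : ℝ, (u ≠ 0 ∨ v ≠ 0) → μ {y | u * y.1 + v * y.2 = w} = 0) ∧
        ∀ g n k : ℕ, 2 ≤ g → 2 * g ≤ m → 6 ≤ m → m * g + 2 ≤ n → n ≤ 4 * m * (g - 1) + 2 →
          g * (n - 2) ≤ m * k → m * k ≤ (g + 1) * (n - 2) →
          ENNReal.ofReal (c * g) * (psi a B g : ℝ≥0∞) ≤
            ∫⁻ P, (psi (sl P) (ic P) k : ℝ≥0∞) ∂Measure.pi (fun _ : Fin n => μ)) ∧
    (∀ K β : ℝ, 0 ≤ β → β ≤ 1 →
      (∀ (μ : Measure (ℝ × ℝ)) [IsProbabilityMeasure μ],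
        (∀ u v w : ℝ, (u ≠ 0 ∨ v ≠ 0) → μ {y | u * y.1 + v * y.2 = w} = 0) →
        ∀ n k : ℕ, 2 * k ≤ n → ∫⁻ P, (psi (sl P) (ic P) k : ℝ≥0∞)
          ∂Measure.pi (fun _ : Fin n => μ) ≤ ENNReal.ofReal (K * n * ((k : ℝ) + 1) ^ β)) →
      ∀ (m : ℕ) (a B : Fin m → ℝ), Simple a B → ∀ g : ℕ, 2 ≤ g → 2 * g ≤ m → 6 ≤ m →
        (psi a B g : ℝ≥0∞) ≤ ENNReal.ofReal (1 / c * K * m * (g : ℝ) ^ (2 * β))) := by
  classical
  set c0 : ℝ := Real.exp (-96) / 16 with hc0
  have hc00 : 0 < c0 := by positivity
  have hmain : ∀ (m : ℕ) (a B : Fin m → ℝ), Simple a B →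
      ∃ μ : Measure (ℝ × ℝ), IsProbabilityMeasure μ ∧
        (∀ u v w : ℝ, (u ≠ 0 ∨ v ≠ 0) → μ {y | u * y.1 + v * y.2 = w} = 0) ∧
        ∀ g n k : ℕ, 2 ≤ g → 2 * g ≤ m → 6 ≤ m → m * g + 2 ≤ n → n ≤ 4 * m * (g - 1) + 2 →
          g * (n - 2) ≤ m * k → m * k ≤ (g + 1) * (n - 2) →
          ENNReal.ofReal (c0 / 4 * g) * (psi a B g : ℝ≥0∞) ≤
            ∫⁻ P, (psi (sl P) (ic P) k : ℝ≥0∞) ∂Measure.pi (fun _ : Fin n => μ) := by
    intro m a B hS
    by_cases hm : 0 < m
    swap
    · refine ⟨(volume (Metric.ball (0 : ℝ × ℝ) 1))⁻¹ • volume.restrict (Metric.ball (0 : ℝ × ℝ) 1),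
        ?_, ?_, ?_⟩
      · constructor
        exact nu_one (c := 0) (ε := 1) one_pos MeasurableSet.univ (Set.subset_univ _)
      · intro u v w huv
        have h := mu_LN (m := 1) (fun _ => (0 : ℝ × ℝ)) 1 u v w huv
        rw [mu_apply] at h
        simp only [univ_unique, sum_singleton, Nat.cast_one, inv_one, one_mul] at h
        exact h
      · intro g n k _ _ h6
        omega
    set Q : Fin m → ℝ × ℝ := fun l => (a l, B l) with hQ
    have hinj : Function.Injective Q := by
      intro i j hij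
      by_contra hne
      have h1 : a i = a j := congrArg Prod.fst hij
      have h2 : B i = B j := congrArg Prod.snd hij
      exact hS.1 i j hne h1 h2
    have hNL : NL Q := by
      intro i j l hij hli hlj heq
      have hne : i ≠ j := by rintro rfl; exact lt_irrefl _ hij
      have haij : a i ≠ a j := ne_of_gt hij
      refine hS.2 i j l hne hli.symm hlj.symm ⟨cr a B i j, (ht_cr haij).symm, ?_⟩
      exact heq.symm
    obtain ⟨ε, hε, hdisj, hpert⟩ := exists_eps Q hinj hNL
    refine ⟨mu Q ε, mu_prob hm Q hε, mu_LN Q ε, ?_⟩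
    intro g n k hg hgm hm6 hn1 hn2 hk1 hk2
    have hprob := mu_prob hm Q hε
    set π := Measure.pi (fun _ : Fin n => mu Q ε) with hπ
    obtain ⟨g', rfl⟩ : ∃ g', g = g' + 2 := ⟨g - 2, by omega⟩
    have hE : ∫⁻ P, (((T P).filter (fun q => lev P q = k)).card : ℝ≥0∞) ∂π ≤
        ∫⁻ P, (psi (sl P) (ic P) k : ℝ≥0∞) ∂π := by
      apply lintegral_mono_ae
      filter_upwards [ae_GP (mu_LN Q ε) n] with P hP
      have h1 := crossings_ge P k
      have h2 := psi_ge (simple_of_GP hP) k
      have h3 : (((T P).filter (fun q => lev P q = k)).card : ℕ∞) ≤ psi (sl P) (ic P) k :=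
        le_trans (by exact_mod_cast h1) h2
      have h4 : (((((T P).filter (fun q => lev P q = k)).card : ℕ∞)) : ℝ≥0∞) ≤
        (psi (sl P) (ic P) k : ℝ≥0∞) := by exact_mod_cast h3
      rwa [ENat.toENNReal_coe] at h4
    have e1 := E_ge hm hε hdisj hpert (g := g' + 2) (n := n) (k := k) (by omega) (by omega)
      hn1 (by
        have : 4 * m * (g' + 2 - 1) ≤ 4 * (m * (g' + 2)) := by
          rw [mul_assoc]; gcongr; exact Nat.sub_le _ _
        omega) hk1 (hk2.trans (by gcongr; omega))
    have e2 := E_ge hm hε hdisj hpert (g := g' + 1) (n := n) (k := k) (by omega) (by omega)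
      (by
        have : m * (g' + 1) ≤ m * (g' + 2) := by gcongr; omega
        omega) (by
        have : 4 * m * (g' + 2 - 1) = 4 * (m * (g' + 1)) := by
          rw [mul_assoc]; rfl
        omega) (le_trans (by gcongr; omega) hk1) (hk2.trans (le_of_eq (by ring)))
    have c1 : (crossings a B (g' + 2)).ncard ≤ ((T Q).filter (fun q => lev Q q = g' + 2)).card :=
      crossings_lev (P := Q) (g' + 2)
    have c2 : (crossings a B (g' + 1)).ncard ≤ ((T Q).filter (fun q => lev Q q = g' + 1)).card :=
      crossings_lev (P := Q) (g' + 1)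
    have hpsi := psi_le hS (k := g' + 2) (by omega)
    rw [if_neg (by omega), show g' + 2 - 1 = g' + 1 by omega] at hpsi
    set x := ((T Q).filter (fun q => lev Q q = g' + 2)).card with hx
    set y := ((T Q).filter (fun q => lev Q q = g' + 1)).card with hy
    have hpsi2 : (psi a B (g' + 2) : ℝ≥0∞) ≤ ENNReal.ofReal (x + y) := by
      have h3 : psi a B (g' + 2) ≤ ((x + y : ℕ) : ℕ∞) :=
        hpsi.trans (by exact_mod_cast Nat.add_le_add c1 c2)
      have h4 : (psi a B (g' + 2) : ℝ≥0∞) ≤ (((x + y : ℕ) : ℕ∞) : ℝ≥0∞) := by exact_mod_cast h3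
      rw [ENat.toENNReal_coe, ← ENNReal.ofReal_natCast] at h4
      push_cast at h4
      exact h4
    have hx0 : (0 : ℝ) ≤ x := Nat.cast_nonneg x
    have hy0 : (0 : ℝ) ≤ y := Nat.cast_nonneg y
    have hg0 : (0 : ℝ) ≤ g' := Nat.cast_nonneg g'
    calc ENNReal.ofReal (c0 / 4 * ((g' + 2 : ℕ) : ℝ)) * (psi a B (g' + 2) : ℝ≥0∞)
        ≤ ENNReal.ofReal (c0 / 4 * ((g' + 2 : ℕ) : ℝ)) * ENNReal.ofReal (x + y) := by gcongr
      _ = ENNReal.ofReal (c0 / 4 * ((g' + 2 : ℕ) : ℝ) * (x + y)) := by
          rw [← ENNReal.ofReal_mul (by positivity)]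
      _ ≤ ENNReal.ofReal (max (c0 * ((g' + 2 : ℕ) : ℝ) * x) (c0 * ((g' + 1 : ℕ) : ℝ) * y)) := by
          apply ENNReal.ofReal_le_ofReal
          push_cast
          have b1 := le_max_left (c0 * ((g' : ℝ) + 2) * x) (c0 * ((g' : ℝ) + 1) * y)
          have b2 := le_max_right (c0 * ((g' : ℝ) + 2) * x) (c0 * ((g' : ℝ) + 1) * y)
          have b3 : c0 / 4 * ((g' : ℝ) + 2) * y ≤ 1 / 2 * (c0 * ((g' : ℝ) + 1) * y) := by
            have : c0 * y * ((g' : ℝ) + 2) ≤ c0 * y * (2 * ((g' : ℝ) + 1)) :=
              mul_le_mul_of_nonneg_left (by linarith) (by positivity)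
            linarith
          have b4 : 0 ≤ c0 * ((g' : ℝ) + 2) * x := by positivity
          linarith
      _ ≤ ∫⁻ P, (((T P).filter (fun q => lev P q = k)).card : ℝ≥0∞) ∂π := by
          rcases max_cases (c0 * ((g' + 2 : ℕ) : ℝ) * x) (c0 * ((g' + 1 : ℕ) : ℝ) * y) with h | h
          · rw [h.1]; exact e1
          · rw [h.1]; exact e2
      _ ≤ _ := hE
  refine ⟨c0 / 16, by positivity, ?_, ?_⟩
  · intro m a B hS
    obtain ⟨μ, h1, h2, h3⟩ := hmain m a B hS
    refine ⟨μ, h1, h2, fun g n k g1 g2 g3 g4 g5 g6 g7 => le_trans ?_ (h3 g n k g1 g2 g3 g4 g5 g6 g7)⟩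
    gcongr
    norm_num
  · intro K β hβ0 hβ1 H m a B hS g hg hgm hm6
    obtain ⟨μ, h1, h2, h3⟩ := hmain m a B hS
    have h4 := h3 g (m * g + 2) (g ^ 2) hg hgm hm6 le_rfl (by
      have : m * g ≤ 4 * m * (g - 1) := by
        obtain ⟨g', rfl⟩ : ∃ g', g = g' + 2 := ⟨g - 2, by omega⟩
        rw [show g' + 2 - 1 = g' + 1 by omega]
        nlinarith
      omega) (by rw [Nat.add_sub_cancel]; exact le_of_eq (by ring)) (by
        rw [Nat.add_sub_cancel]
        nlinarith)
    have h5 := h4.trans (H μ h2 (m * g + 2) (g ^ 2) (by nlinarith))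
    have hg0 : (2 : ℝ) ≤ g := by exact_mod_cast hg
    have hm0 : (6 : ℝ) ≤ m := by exact_mod_cast hm6
    by_cases hK : 0 ≤ K
    · have hbound : K * ((m * g + 2 : ℕ) : ℝ) * (((g ^ 2 : ℕ) : ℝ) + 1) ^ β ≤
          c0 / 4 * g * (1 / (c0 / 16) * K * m * (g : ℝ) ^ (2 * β)) := by
        push_cast
        have e1 : ((g : ℝ) ^ 2 + 1) ^ β ≤ 2 * (g : ℝ) ^ (2 * β) := by
          calc ((g : ℝ) ^ 2 + 1) ^ β ≤ (2 * (g : ℝ) ^ 2) ^ β := by
                apply Real.rpow_le_rpow (by positivity) _ hβ0
                nlinarith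
            _ = 2 ^ β * (g : ℝ) ^ (2 * β) := by
                rw [Real.mul_rpow (by norm_num) (by positivity), ← Real.rpow_natCast,
                  ← Real.rpow_mul (by positivity)]
                norm_num
            _ ≤ 2 * (g : ℝ) ^ (2 * β) := by
                apply mul_le_mul_of_nonneg_right _ (by positivity)
                calc (2 : ℝ) ^ β ≤ 2 ^ (1 : ℝ) :=
                      Real.rpow_le_rpow_of_exponent_le (by norm_num) hβ1
                  _ = 2 := Real.rpow_one _
        have e2 : (m : ℝ) * g + 2 ≤ 2 * (m * g) := by nlinarith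
        calc K * ((m : ℝ) * g + 2) * ((g : ℝ) ^ 2 + 1) ^ β
            ≤ K * (2 * (m * g)) * (2 * (g : ℝ) ^ (2 * β)) := by gcongr
          _ = _ := by field_simp; ring
      have h6 := h5.trans (ENNReal.ofReal_le_ofReal hbound)
      have hcg : 0 < c0 / 4 * g := by positivity
      rw [ENNReal.ofReal_mul hcg.le] at h6
      exact (ENNReal.mul_le_mul_iff_right (ENNReal.ofReal_pos.mpr hcg).ne'
        ENNReal.ofReal_ne_top).mp h6
    · push Not at hK
      have h6 : ENNReal.ofReal (K * ((m * g + 2 : ℕ) : ℝ) * (((g ^ 2 : ℕ) : ℝ) + 1) ^ β) = 0 := by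
        apply ENNReal.ofReal_of_nonpos
        have : 0 ≤ ((m * g + 2 : ℕ) : ℝ) * (((g ^ 2 : ℕ) : ℝ) + 1) ^ β := by positivity
        nlinarith
      rw [h6, nonpos_iff_eq_zero, mul_eq_zero] at h5
      rcases h5 with h5 | h5
      · exfalso
        have : 0 < c0 / 4 * g := by positivity
        exact (ENNReal.ofReal_pos.mpr this).ne' h5
      · rw [h5]; exact zero_le
end Pool.Agent.Results.MP_a08d0a_co.IidReduction
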