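import Pool.Agent.H189R2.Lev.Lines

/-! Smoothed analysis of a single level in an arrangement of `n` lines `y = a l * x + B l`:
arbitrary slopes, independent random intercepts. -/

set_option autoImplicit false

namespace Pool.Agent.Results.MP_a08d0a_co.SmoothedLevel

open Finset MeasureTheory Filter Pool.Agent.H189R2.Lev
open scoped ENNReal Topology

/-- no two of the lines coincide and no three of them pass through a common point -/
def Simple {n : ℕ} (a B : Fin n → ℝ) : Prop :=
  (∀ i j, i ≠ j → a i = a j → B i ≠ B j) ∧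
    ∀ i j l, i ≠ j → i ≠ l → j ≠ l → ¬ ∃ x, ht a B i x = ht a B j x ∧ ht a B i x = ht a B l x

/-- pairs `i < j` of non-parallel lines whose crossing point has exactly `k` lines strictly below -/
def crossings {n : ℕ} (a B : Fin n → ℝ) (k : ℕ) : Set (Fin n × Fin n) :=
  {q | q.1 < q.2 ∧ a q.1 ≠ a q.2 ∧
    {l | ht a B l (cr a B q.1 q.2) < ht a B q.1 (cr a B q.1 q.2)}.ncard = k}

/-- the `k`-level as a function of `x`: the smallest height with more than `k` lines weakly below,
i.e. the `(k+1)`-st lowest line above `x` -/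
noncomputable def level {n : ℕ} (a B : Fin n → ℝ) (k : ℕ) (x : ℝ) : ℝ :=
  sInf {y | k < {l | ht a B l x ≤ y}.ncard}

/-- complexity of the `k`-level: number of abscissae near which the level does not follow a single
line -/
noncomputable def psi {n : ℕ} (a B : Fin n → ℝ) (k : ℕ) : ℕ∞ :=
  {x : ℝ | ¬ ∃ l, level a B k =ᶠ[𝓝 x] ht a B l}.encard

theorem measurable_ncard {Ω : Type*} [MeasurableSpace Ω] {ι : Type*} [Fintype ι]
    (s : Ω → ι → Prop) (hs : ∀ l, MeasurableSet {P | s P l}) :
    Measurable (fun P : Ω => {l | s P l}.ncard) := by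
  classical
  have h : (fun P : Ω => {l | s P l}.ncard) = fun P => ∑ l, if s P l then 1 else 0 := by
    ext P
    have : {l | s P l} = ((univ.filter (fun l => s P l) : Finset ι) : Set ι) := by
      ext l; simp
    rw [this, Set.ncard_coe_finset, card_filter]
  rw [h]
  exact Finset.measurable_sum _ (fun l _ => Measurable.ite (hs l) measurable_const measurable_const)

theorem measurable_cr {n : ℕ} (a : Fin n → ℝ) (i j : Fin n) :
    Measurable (fun B : Fin n → ℝ => cr a B i j) := by
  unfold cr
  fun_prop

theorem measurable_ht {n : ℕ} (a : Fin n → ℝ) (i j l : Fin n) :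
    Measurable (fun B : Fin n → ℝ => ht a B l (cr a B i j)) := by
  unfold ht
  exact ((measurable_cr a i j).const_mul _).add (measurable_pi_apply l)

theorem measurableSet_below {n : ℕ} (a : Fin n → ℝ) (k : ℕ) (i j : Fin n) :
    MeasurableSet {B : Fin n → ℝ |
      {l | ht a B l (cr a B i j) < ht a B i (cr a B i j)}.ncard = k} :=
  (measurable_ncard (fun (B : Fin n → ℝ) l => ht a B l (cr a B i j) < ht a B i (cr a B i j))
    (fun l => measurableSet_lt (measurable_ht a i j l) (measurable_ht a i j i)))
    (measurableSet_singleton k)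

theorem measurableSet_posV {n : ℕ} (a : Fin n → ℝ) (k : ℕ) (i j : Fin n) :
    MeasurableSet {B : Fin n → ℝ | PosV a B k i j} := by
  unfold PosV
  have h1 : MeasurableSet {_B : Fin n → ℝ | a i ≠ a j} := MeasurableSet.const _
  have h2 : MeasurableSet {B : Fin n → ℝ | 0 ≤ cr a B i j} :=
    measurableSet_le measurable_const (measurable_cr a i j)
  have h3 : MeasurableSet {B : Fin n → ℝ |
      {l | ht a B i (cr a B i j) < ht a B l (cr a B i j)}.ncard + k + 2 = n} :=
    (measurable_ncard (fun (B : Fin n → ℝ) l => ht a B i (cr a B i j) < ht a B l (cr a B i j))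
      (fun l => measurableSet_lt (measurable_ht a i j i) (measurable_ht a i j l)))
      (MeasurableSet.of_discrete (s := {c : ℕ | c + k + 2 = n}))
  exact h1.inter (h2.inter ((measurableSet_below a k i j).inter h3))

theorem measurable_crossings {n : ℕ} (a : Fin n → ℝ) (k : ℕ) :
    Measurable (fun B : Fin n → ℝ => ((crossings a B k).ncard : ℝ≥0∞)) := by
  have h := measurable_ncard (fun (B : Fin n → ℝ) (q : Fin n × Fin n) => q.1 < q.2 ∧
    a q.1 ≠ a q.2 ∧ {l | ht a B l (cr a B q.1 q.2) < ht a B q.1 (cr a B q.1 q.2)}.ncard = k)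
    (fun q => (MeasurableSet.const _).inter
      ((MeasurableSet.const _).inter (measurableSet_below a k q.1 q.2)))
  exact (measurable_of_countable (fun c : ℕ => (c : ℝ≥0∞))).comp h

theorem null_coord {n : ℕ} {ν : Fin n → Measure ℝ} [∀ i, IsProbabilityMeasure (ν i)]
    {D : ℝ} (hν : ∀ i, ∀ s t : ℝ, s ≤ t → ν i (Set.Icc s t) ≤ ENNReal.ofReal (D * (t - s)))
    (l : Fin n) (f : (Fin n → ℝ) → ℝ) (hf : Measurable f)
    (hfl : ∀ B b, f (Function.update B l b) = f B) : ∀ᵐ B ∂Measure.pi ν, B l ≠ f B := by
  rw [ae_iff]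
  simp only [ne_eq, not_not]
  have hm : MeasurableSet {B : Fin n → ℝ | B l = f B} :=
    measurableSet_eq_fun (measurable_pi_apply l) hf
  rw [← lintegral_indicator_one hm, pi_update ν l (measurable_one.indicator hm)]
  have : ∀ B : Fin n → ℝ, ∫⁻ y, {B : Fin n → ℝ | B l = f B}.indicator
      (1 : (Fin n → ℝ) → ℝ≥0∞) (Function.update B l y) ∂ν l = 0 := by
    intro B
    apply le_antisymm _ bot_le
    calc _ = ∫⁻ y, (Set.Icc (f B) (f B)).indicator (1 : ℝ → ℝ≥0∞) y ∂ν l := by
          apply lintegral_congr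
          intro y
          simp only [Set.indicator_apply, Set.mem_ofPred_eq, Function.update_self, hfl,
            Pi.one_apply, Set.Icc_self, Set.mem_singleton_iff]
      _ = ν l (Set.Icc (f B) (f B)) := lintegral_indicator_one measurableSet_Icc
      _ ≤ ENNReal.ofReal (D * (f B - f B)) := hν l _ _ le_rfl
      _ = 0 := by simp
  simp [this]

theorem ae_simple {n : ℕ} {ν : Fin n → Measure ℝ} [∀ i, IsProbabilityMeasure (ν i)]
    {D : ℝ} (hν : ∀ i, ∀ s t : ℝ, s ≤ t → ν i (Set.Icc s t) ≤ ENNReal.ofReal (D * (t - s)))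
    (a : Fin n → ℝ) : ∀ᵐ B ∂Measure.pi ν, Simple a B := by
  have h1 : ∀ᵐ B ∂Measure.pi ν, ∀ i j, i ≠ j → B i ≠ B j := by
    rw [ae_all_iff]; intro i
    rw [ae_all_iff]; intro j
    by_cases hij : i = j
    · exact Eventually.of_forall (fun _ h => absurd hij h)
    · filter_upwards [null_coord hν i (fun B => B j) (measurable_pi_apply j)
        (fun B b => Function.update_of_ne (Ne.symm hij) _ _)] with B hB _
      exact hB
  have h2 : ∀ᵐ B ∂Measure.pi ν, ∀ i j l, i ≠ l → j ≠ l →
      B l ≠ ht a B i (cr a B i j) - a l * cr a B i j := by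
    rw [ae_all_iff]; intro i
    rw [ae_all_iff]; intro j
    rw [ae_all_iff]; intro l
    by_cases hil : i = l
    · exact Eventually.of_forall (fun _ h => absurd hil h)
    by_cases hjl : j = l
    · exact Eventually.of_forall (fun _ _ h => absurd hjl h)
    filter_upwards [null_coord hν l (fun B => ht a B i (cr a B i j) - a l * cr a B i j)
      ((measurable_ht a i j i).sub ((measurable_cr a i j).const_mul _)) (fun B b => by
        unfold ht cr
        rw [Function.update_of_ne hil, Function.update_of_ne hjl])] with B hB _ _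
    exact hB
  filter_upwards [h1, h2] with B hB1 hB2
  refine ⟨fun i j hij _ => hB1 i j hij, ?_⟩
  rintro i j l hij hil hjl ⟨x, e1, e2⟩
  by_cases ha : a i = a j
  · apply hB1 i j hij
    unfold ht at e1
    rw [ha] at e1
    linarith
  · have ha' : a i - a j ≠ 0 := sub_ne_zero.mpr ha
    have hx : x = cr a B i j := by
      unfold cr ht at *
      rw [eq_div_iff ha']
      linarith
    apply hB2 i j l hil hjl
    rw [← hx, e2]
    unfold ht
    ring

theorem posV_empty {n k : ℕ} (hk : ¬ k + 2 ≤ n) (a B : Fin n → ℝ) (i j : Fin n) :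
    ¬ PosV a B k i j := by
  rintro ⟨_, _, _, h⟩
  omega

theorem count_pos {n : ℕ} (a B : Fin n → ℝ) (k : ℕ) (α : ℝ) :
    {q : Fin n × Fin n | q.1 < q.2 ∧ PosV a B k q.1 q.2}.ncard ≤
      ∑ i, {j | PosV a B k i j ∧ |a j - α| ≤ |a i - α|}.ncard := by
  classical
  have h1 : ({q : Fin n × Fin n | PosV a B k q.1 q.2 ∧ |a q.2 - α| ≤ |a q.1 - α|}).ncard =
      ∑ i, {j | PosV a B k i j ∧ |a j - α| ≤ |a i - α|}.ncard := by
    have e : {q : Fin n × Fin n | PosV a B k q.1 q.2 ∧ |a q.2 - α| ≤ |a q.1 - α|} =
        ((univ.filter (fun q : Fin n × Fin n =>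
          PosV a B k q.1 q.2 ∧ |a q.2 - α| ≤ |a q.1 - α|) : Finset _) : Set _) := by
      ext q; simp
    rw [e, Set.ncard_coe_finset, card_filter, Fintype.sum_prod_type]
    apply sum_congr rfl
    intro i _
    have e' : {j | PosV a B k i j ∧ |a j - α| ≤ |a i - α|} =
        ((univ.filter (fun j => PosV a B k i j ∧ |a j - α| ≤ |a i - α|) : Finset _) : Set _) := by
      ext j; simp
    rw [e', Set.ncard_coe_finset, card_filter]
  rw [← h1]
  apply Set.ncard_le_ncard_of_injOn
    (fun q : Fin n × Fin n => if |a q.2 - α| ≤ |a q.1 - α| then q else q.swap)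
  · rintro ⟨i, j⟩ ⟨_, hq⟩
    by_cases h : |a j - α| ≤ |a i - α|
    · simp only [h, if_true]
      exact ⟨hq, h⟩
    · simp only [h, if_false]
      exact ⟨hq.symm, (not_le.mp h).le⟩
  · rintro ⟨i, j⟩ ⟨hq, _⟩ ⟨i', j'⟩ ⟨hq', _⟩ heq
    simp only at hq hq' heq
    split_ifs at heq with h h' h'
    · exact heq
    · rw [Prod.swap_prod_mk, Prod.mk.injEq] at heq
      rw [heq.1, heq.2] at hq
      exact absurd hq' (lt_asymm hq)
    · rw [Prod.swap_prod_mk, Prod.mk.injEq] at heq
      rw [heq.1, heq.2] at hq
      exact absurd hq' (lt_asymm hq)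
    · rw [Prod.swap_prod_mk, Prod.swap_prod_mk, Prod.mk.injEq] at heq
      rw [heq.1, heq.2]

theorem pos_bound {n : ℕ} {ν : Fin n → Measure ℝ} [∀ i, IsProbabilityMeasure (ν i)]
    {D M : ℝ} (hν : ∀ i, ∀ s t : ℝ, s ≤ t → ν i (Set.Icc s t) ≤ ENNReal.ofReal (D * (t - s)))
    (hM : ∀ i, ∀ᵐ b ∂ν i, |b| ≤ M) (a : Fin n → ℝ) (k : ℕ) :
    ∫⁻ B, ({q : Fin n × Fin n | q.1 < q.2 ∧ PosV a B k q.1 q.2}.ncard : ℝ≥0∞) ∂Measure.pi ν ≤
      ENNReal.ofReal (4 * D * M * n) := by
  classical
  by_cases hk : k + 2 ≤ n
  · obtain ⟨s, hs1, hs2⟩ := exists_stat (univ : Finset (Fin n)) (fun l => -a l) (k := k)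
      (by simp; omega)
    have hα1 : (univ.filter (fun l => a l < -s)).card ≤ k := by
      refine le_trans (card_le_card ?_) hs1
      intro l hl
      rw [mem_filter] at hl ⊢
      exact ⟨hl.1, by linarith [hl.2]⟩
    have hα2 : k < (univ.filter (fun l => a l ≤ -s)).card := by
      refine lt_of_lt_of_le hs2 (card_le_card ?_)
      intro l hl
      rw [mem_filter] at hl ⊢
      exact ⟨hl.1, by linarith [hl.2]⟩
    set α := -s with hα
    have hmeas : ∀ i, Measurable (fun B : Fin n → ℝ =>
        ({j | PosV a B k i j ∧ |a j - α| ≤ |a i - α|}.ncard : ℝ≥0∞)) := by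
      intro i
      have h := measurable_ncard (fun (B : Fin n → ℝ) j =>
        PosV a B k i j ∧ |a j - α| ≤ |a i - α|)
        (fun j => (measurableSet_posV a k i j).inter (MeasurableSet.const _))
      exact (measurable_of_countable (fun c : ℕ => (c : ℝ≥0∞))).comp h
    have hae : ∀ᵐ B ∂Measure.pi ν, ∀ l, |B l| ≤ M := by
      rw [ae_all_iff]
      intro l
      exact (measurePreserving_eval ν l).quasiMeasurePreserving.ae (hM l)
    calc ∫⁻ B, ({q : Fin n × Fin n | q.1 < q.2 ∧ PosV a B k q.1 q.2}.ncard : ℝ≥0∞) ∂Measure.pi ν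
        ≤ ∫⁻ B, ∑ i, ({j | PosV a B k i j ∧ |a j - α| ≤ |a i - α|}.ncard : ℝ≥0∞)
            ∂Measure.pi ν := by
          apply lintegral_mono
          intro B
          have := count_pos a B k α
          beta_reduce
          exact_mod_cast this
      _ = ∑ i, ∫⁻ B, ({j | PosV a B k i j ∧ |a j - α| ≤ |a i - α|}.ncard : ℝ≥0∞)
            ∂Measure.pi ν := lintegral_finsetSum _ (fun i _ => hmeas i)
      _ ≤ ∑ _i : Fin n, ENNReal.ofReal (4 * D * M) := by
          apply sum_le_sum
          intro i _
          rw [pi_update ν i (hmeas i)]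
          calc _ ≤ ∫⁻ _B, ENNReal.ofReal (4 * D * M) ∂Measure.pi ν := by
                apply lintegral_mono_ae
                filter_upwards [hae] with B hB
                exact inner_line hk a B hB hα1 hα2 i (ν i) (hν i) (hM i)
            _ = _ := by simp
      _ = ENNReal.ofReal (4 * D * M * n) := by
          rw [sum_const, card_univ, Fintype.card_fin, nsmul_eq_mul, ← ENNReal.ofReal_natCast,
            ← ENNReal.ofReal_mul (by positivity)]
          congr 1
          ring
  · have : ∀ B : Fin n → ℝ, {q : Fin n × Fin n | q.1 < q.2 ∧ PosV a B k q.1 q.2} = ∅ := by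
      intro B
      ext q
      simp only [Set.mem_ofPred_eq, Set.mem_empty_iff_false, iff_false]
      exact fun h => posV_empty hk a B _ _ h.2
    simp [this]

theorem ht_neg {n : ℕ} (a B : Fin n → ℝ) (l : Fin n) (x : ℝ) :
    ht (fun i => -a i) B l (-x) = ht a B l x := by
  unfold ht
  ring

theorem cr_neg {n : ℕ} (a B : Fin n → ℝ) (i j : Fin n) :
    cr (fun i => -a i) B i j = -cr a B i j := by
  unfold cr
  rw [show -a i - -a j = -(a i - a j) by ring, div_neg]

/-- at a crossing of a simple arrangement exactly two lines pass -/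
theorem count3 {n : ℕ} {a B : Fin n → ℝ} (hS : Simple a B) {i j : Fin n} (hij : i ≠ j) {x : ℝ}
    (hx : ht a B i x = ht a B j x) :
    {l | ht a B i x < ht a B l x}.ncard + {l | ht a B l x < ht a B i x}.ncard + 2 = n := by
  classical
  have e1 : {l | ht a B i x < ht a B l x} =
      ((univ.filter (fun l => ht a B i x < ht a B l x) : Finset _) : Set _) := by
    ext l; simp
  have e2 : {l | ht a B l x < ht a B i x} =
      ((univ.filter (fun l => ht a B l x < ht a B i x) : Finset _) : Set _) := by
    ext l; simp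
  rw [e1, e2, Set.ncard_coe_finset, Set.ncard_coe_finset]
  have h1 := Finset.card_filter_add_card_filter_not (s := univ)
    (fun l => ht a B i x < ht a B l x)
  have h2 := Finset.card_filter_add_card_filter_not
    (s := univ.filter (fun l => ¬ ht a B i x < ht a B l x))
    (fun l => ht a B l x < ht a B i x)
  have h3 : (univ.filter (fun l => ¬ ht a B i x < ht a B l x)).filter
      (fun l => ht a B l x < ht a B i x) = univ.filter (fun l => ht a B l x < ht a B i x) := by
    ext l
    simp only [mem_filter, mem_univ, true_and, not_lt]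
    exact ⟨fun h => h.2, fun h => ⟨h.le, h⟩⟩
  have h4 : (univ.filter (fun l => ¬ ht a B i x < ht a B l x)).filter
      (fun l => ¬ ht a B l x < ht a B i x) = {i, j} := by
    ext l
    simp only [mem_filter, mem_univ, true_and, not_lt, mem_insert, mem_singleton]
    constructor
    · rintro ⟨h5, h6⟩
      by_contra hcon
      push Not at hcon
      exact hS.2 i j l hij (Ne.symm hcon.1) (Ne.symm hcon.2) ⟨x, hx, le_antisymm h6 h5⟩
    · rintro (rfl | rfl)
      · exact ⟨le_rfl, le_rfl⟩
      · exact ⟨hx.ge, hx.le⟩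
  rw [h3, h4, card_pair hij] at h2
  simp only [card_univ, Fintype.card_fin] at h1
  omega

theorem crossings_le {n : ℕ} {a B : Fin n → ℝ} (hS : Simple a B) (k : ℕ) :
    (crossings a B k).ncard ≤ {q : Fin n × Fin n | q.1 < q.2 ∧ PosV a B k q.1 q.2}.ncard +
      {q : Fin n × Fin n | q.1 < q.2 ∧ PosV (fun i => -a i) B k q.1 q.2}.ncard := by
  refine le_trans (Set.ncard_le_ncard ?_ (Set.toFinite _)) (Set.ncard_union_le _ _)
  rintro ⟨i, j⟩ ⟨h1, h2, h3⟩
  simp only at h1 h2 h3
  have h4 := ht_cr (B := B) h2
  have h5 := count3 hS h1.ne h4.symm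
  rcases le_total 0 (cr a B i j) with h | h
  · left
    exact ⟨h1, h2, h, h3, by simp only; omega⟩
  · right
    refine ⟨h1, fun h => h2 (neg_injective h), ?_, ?_, ?_⟩
    · simp only [cr_neg]; linarith
    · simp only [cr_neg, ht_neg]; exact h3
    · simp only [cr_neg, ht_neg]; omega

theorem level_eq {n : ℕ} {a B : Fin n → ℝ} {k : ℕ} {x y : ℝ}
    (h1 : {l | ht a B l x < y}.ncard ≤ k) (h2 : k < {l | ht a B l x ≤ y}.ncard) :
    level a B k x = y := by
  apply IsLeast.csInf_eq
  refine ⟨h2, ?_⟩
  intro y' hy'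
  rw [Set.mem_ofPred_eq] at hy'
  by_contra hcon
  push Not at hcon
  have := Set.ncard_le_ncard (s := {l | ht a B l x ≤ y'}) (t := {l | ht a B l x < y})
    (fun l hl => lt_of_le_of_lt hl hcon) (Set.toFinite _)
  omega

theorem exists_level {n : ℕ} (a B : Fin n → ℝ) {k : ℕ} (hk : k < n) (x : ℝ) :
    ∃ i, {l | ht a B l x < ht a B i x}.ncard ≤ k ∧ k < {l | ht a B l x ≤ ht a B i x}.ncard := by
  classical
  obtain ⟨s, hs1, hs2⟩ := exists_stat (univ : Finset (Fin n)) (fun l => -ht a B l x) (k := k)
    (by simpa using hk)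
  have h : ∃ i, ht a B i x = -s := by
    by_contra hcon
    push Not at hcon
    have hsub : univ.filter (fun l => s ≤ -ht a B l x) ⊆ univ.filter (fun l => s < -ht a B l x) := by
      intro l hl
      rw [mem_filter] at hl ⊢
      refine ⟨hl.1, lt_of_le_of_ne hl.2 (fun h => hcon l ?_)⟩
      linarith
    have := card_le_card hsub
    omega
  obtain ⟨i, hi⟩ := h
  refine ⟨i, ?_, ?_⟩
  · rw [← Set.ncard_coe_finset] at hs1
    refine le_trans (Set.ncard_le_ncard ?_ (Set.toFinite _)) hs1
    intro l hl
    rw [Set.mem_ofPred_eq, hi] at hl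
    simp only [coe_filter, mem_univ, true_and, Set.mem_ofPred_eq]
    linarith
  · rw [← Set.ncard_coe_finset] at hs2
    refine lt_of_lt_of_le hs2 (Set.ncard_le_ncard ?_ (Set.toFinite _))
    intro l hl
    simp only [coe_filter, mem_univ, true_and, Set.mem_ofPred_eq] at hl
    rw [Set.mem_ofPred_eq, hi]
    linarith

theorem psi_le {n : ℕ} {a B : Fin n → ℝ} (hS : Simple a B) {k : ℕ} (hk : k < n) :
    psi a B k ≤ ((crossings a B k).ncard + (if k = 0 then 0 else (crossings a B (k - 1)).ncard) :
      ℕ) := by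
  classical
  set C' : Set (Fin n × Fin n) := if k = 0 then ∅ else crossings a B (k - 1) with hC'
  have hC'n : C'.ncard = if k = 0 then 0 else (crossings a B (k - 1)).ncard := by
    rw [hC']
    split_ifs <;> simp
  have hsub : {x : ℝ | ¬ ∃ l, level a B k =ᶠ[𝓝 x] ht a B l} ⊆
      (fun q : Fin n × Fin n => cr a B q.1 q.2) '' (crossings a B k ∪ C') := by
    intro x hx
    rw [Set.mem_ofPred_eq] at hx
    obtain ⟨i, hi1, hi2⟩ := exists_level a B hk x
    have hcont : ∀ l, Continuous (ht a B l) := by
      intro l; unfold ht; fun_prop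
    -- another line passes through the point
    have hex : ∃ j, j ≠ i ∧ ht a B j x = ht a B i x := by
      by_contra hcon
      push Not at hcon
      apply hx
      refine ⟨i, ?_⟩
      have hev : ∀ᶠ x' in 𝓝 x, ∀ l ∈ (univ : Finset (Fin n)),
          (ht a B l x < ht a B i x → ht a B l x' < ht a B i x') ∧
          (ht a B i x < ht a B l x → ht a B i x' < ht a B l x') := by
        rw [Filter.eventually_all_finset]
        intro l _
        rw [Filter.eventually_and]
        constructor
        · by_cases h : ht a B l x < ht a B i x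
          · filter_upwards [((hcont l).tendsto x).eventually_lt ((hcont i).tendsto x) h]
              with x' hx' _
            exact hx'
          · exact Eventually.of_forall (fun _ h' => absurd h' h)
        · by_cases h : ht a B i x < ht a B l x
          · filter_upwards [((hcont i).tendsto x).eventually_lt ((hcont l).tendsto x) h]
              with x' hx' _
            exact hx'
          · exact Eventually.of_forall (fun _ h' => absurd h' h)
      filter_upwards [hev] with x' hx'
      apply level_eq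
      · refine le_trans (Set.ncard_le_ncard ?_ (Set.toFinite _)) hi1
        intro l hl
        rw [Set.mem_ofPred_eq] at hl ⊢
        by_contra h
        push Not at h
        rcases h.lt_or_eq with h | h
        · have := (hx' l (mem_univ l)).2 h
          linarith
        · by_cases hli : l = i
          · subst hli; exact lt_irrefl _ hl
          · exact hcon l hli h.symm
      · refine lt_of_lt_of_le hi2 (Set.ncard_le_ncard ?_ (Set.toFinite _))
        intro l hl
        rw [Set.mem_ofPred_eq] at hl ⊢
        rcases hl.lt_or_eq with h | h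
        · exact ((hx' l (mem_univ l)).1 h).le
        · by_cases hli : l = i
          · subst hli; exact le_rfl
          · exact absurd h (hcon l hli)
    obtain ⟨j, hji, hj⟩ := hex
    have haij : a i ≠ a j := by
      intro h
      apply hS.1 i j (Ne.symm hji) h
      unfold ht at hj
      rw [h] at hj
      linarith
    have hcrx : x = cr a B i j := by
      unfold cr
      rw [eq_div_iff (sub_ne_zero.mpr haij)]
      unfold ht at hj
      linarith
    have hc3 := count3 hS (Ne.symm hji) hj.symm
    have hle : {l | ht a B l x ≤ ht a B i x}.ncard = {l | ht a B l x < ht a B i x}.ncard + 2 := by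
      have e : {l | ht a B l x ≤ ht a B i x} = {l | ht a B i x < ht a B l x}ᶜ := by
        ext l
        simp
      have e' := Set.ncard_compl ({l | ht a B i x < ht a B l x}) (Set.toFinite _)
      rw [← e] at e'
      simp only [Nat.card_eq_fintype_card, Fintype.card_fin] at e'
      omega
    have hkk : {l | ht a B l x < ht a B i x}.ncard = k ∨
        (k ≠ 0 ∧ {l | ht a B l x < ht a B i x}.ncard = k - 1) := by omega
    have hmem : ∀ q : Fin n × Fin n, q.1 < q.2 → a q.1 ≠ a q.2 → x = cr a B q.1 q.2 →
        ht a B q.1 x = ht a B i x → q ∈ crossings a B k ∪ C' := by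
      intro q h1 h2 h3 h4
      rcases hkk with h | ⟨h0, h⟩
      · left
        refine ⟨h1, h2, ?_⟩
        rw [← h3, h4]
        exact h
      · right
        rw [hC', if_neg h0]
        refine ⟨h1, h2, ?_⟩
        rw [← h3, h4]
        exact h
    rcases lt_or_gt_of_ne hji with h | h
    · refine ⟨(j, i), hmem (j, i) h haij.symm ?_ hj, ?_⟩
      · rw [hcrx]; exact cr_symm _ _ _ _
      · rw [hcrx]; exact cr_symm _ _ _ _
    · exact ⟨(i, j), hmem (i, j) h haij hcrx rfl, hcrx.symm⟩
  calc psi a B k ≤ ((fun q : Fin n × Fin n => cr a B q.1 q.2) '' (crossings a B k ∪ C')).encard :=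
        Set.encard_le_encard hsub
    _ ≤ (crossings a B k ∪ C').encard := Set.encard_image_le _ _
    _ ≤ (crossings a B k).encard + C'.encard := Set.encard_union_le _ _
    _ = _ := by
        rw [← (Set.toFinite (crossings a B k)).cast_ncard_eq, ← (Set.toFinite C').cast_ncard_eq,
          hC'n]
        push_cast
        rfl

/-- smoothed bound for a single level of a line arrangement -/
theorem result (n : ℕ) (a : Fin n → ℝ) (ν : Fin n → Measure ℝ) [∀ i, IsProbabilityMeasure (ν i)]
    (D M : ℝ)
    (hν : ∀ i, ∀ s t : ℝ, s ≤ t → ν i (Set.Icc s t) ≤ ENNReal.ofReal (D * (t - s)))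
    (hM : ∀ i, ∀ᵐ b ∂ν i, |b| ≤ M) :
    (∀ᵐ B ∂Measure.pi ν, Simple a B) ∧
    (∀ k : ℕ, ∫⁻ B, ((crossings a B k).ncard : ℝ≥0∞) ∂Measure.pi ν ≤
      ENNReal.ofReal (8 * D * M * n)) ∧
    (∀ k < n, (∀ᵐ B ∂Measure.pi ν, psi a B k ≤
      ((crossings a B k).ncard + (if k = 0 then 0 else (crossings a B (k - 1)).ncard) : ℕ)) ∧
      ∫⁻ B, (psi a B k : ℝ≥0∞) ∂Measure.pi ν ≤ ENNReal.ofReal (16 * D * M * n)) := by
  classical
  have hsimple := ae_simple hν a
  have hcross : ∀ k : ℕ, ∫⁻ B, ((crossings a B k).ncard : ℝ≥0∞) ∂Measure.pi ν ≤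
      ENNReal.ofReal (8 * D * M * n) := by
    intro k
    have hmeas : ∀ a : Fin n → ℝ, Measurable (fun B : Fin n → ℝ =>
        ({q : Fin n × Fin n | q.1 < q.2 ∧ PosV a B k q.1 q.2}.ncard : ℝ≥0∞)) := by
      intro a
      have h := measurable_ncard (fun (B : Fin n → ℝ) (q : Fin n × Fin n) =>
        q.1 < q.2 ∧ PosV a B k q.1 q.2)
        (fun q => (MeasurableSet.const _).inter (measurableSet_posV a k q.1 q.2))
      exact (measurable_of_countable (fun c : ℕ => (c : ℝ≥0∞))).comp h
    by_cases hDM : 0 ≤ D * M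
    · calc ∫⁻ B, ((crossings a B k).ncard : ℝ≥0∞) ∂Measure.pi ν
          ≤ ∫⁻ B, (({q : Fin n × Fin n | q.1 < q.2 ∧ PosV a B k q.1 q.2}.ncard : ℝ≥0∞) +
            ({q : Fin n × Fin n | q.1 < q.2 ∧ PosV (fun i => -a i) B k q.1 q.2}.ncard : ℝ≥0∞))
            ∂Measure.pi ν := by
            apply lintegral_mono_ae
            filter_upwards [hsimple] with B hB
            exact_mod_cast crossings_le hB k
        _ = _ := lintegral_add_left (hmeas a) _
        _ ≤ ENNReal.ofReal (4 * D * M * n) + ENNReal.ofReal (4 * D * M * n) :=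
            add_le_add (pos_bound hν hM a k) (pos_bound hν hM _ k)
        _ = ENNReal.ofReal (8 * D * M * n) := by
            have : 0 ≤ 4 * D * M * n := by
              have := mul_nonneg hDM (Nat.cast_nonneg (α := ℝ) n)
              nlinarith
            rw [← ENNReal.ofReal_add this this]
            congr 1
            ring
    · have h0 := pos_bound hν hM a k
      have h0' := pos_bound hν hM (fun i => -a i) k
      have hz : ENNReal.ofReal (4 * D * M * n) = 0 := by
        apply ENNReal.ofReal_of_nonpos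
        push Not at hDM
        nlinarith [Nat.cast_nonneg (α := ℝ) n]
      rw [hz] at h0 h0'
      calc ∫⁻ B, ((crossings a B k).ncard : ℝ≥0∞) ∂Measure.pi ν
          ≤ ∫⁻ B, (({q : Fin n × Fin n | q.1 < q.2 ∧ PosV a B k q.1 q.2}.ncard : ℝ≥0∞) +
            ({q : Fin n × Fin n | q.1 < q.2 ∧ PosV (fun i => -a i) B k q.1 q.2}.ncard : ℝ≥0∞))
            ∂Measure.pi ν := by
            apply lintegral_mono_ae
            filter_upwards [hsimple] with B hB
            exact_mod_cast crossings_le hB k
        _ = _ := lintegral_add_left (hmeas a) _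
        _ ≤ 0 + 0 := add_le_add h0 h0'
        _ ≤ _ := by simp
  refine ⟨hsimple, hcross, ?_⟩
  intro k hk
  have hpsi : ∀ᵐ B ∂Measure.pi ν, psi a B k ≤
      ((crossings a B k).ncard + (if k = 0 then 0 else (crossings a B (k - 1)).ncard) : ℕ) := by
    filter_upwards [hsimple] with B hB
    exact psi_le hB hk
  refine ⟨hpsi, ?_⟩
  -- here `D * M > 0`
  have hDM : 0 ≤ D * M := by
    have i : Fin n := ⟨k, hk⟩
    have h1 : (∀ᵐ b ∂ν i, b ∈ Set.Icc (-M) M) := by
      filter_upwards [hM i] with b hb
      exact abs_le.mp hb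
    have h2 := (prob_compl_eq_zero_iff (μ := ν i) (s := Set.Icc (-M) M) measurableSet_Icc).mp h1
    have hM0 : -M ≤ M := by
      by_contra hcon
      rw [Set.Icc_eq_empty hcon] at h2
      simp at h2
    have h3 := hν i (-M) M hM0
    rw [h2] at h3
    by_contra hcon
    push Not at hcon
    rw [ENNReal.ofReal_of_nonpos (by nlinarith)] at h3
    exact absurd h3 (by norm_num)
  calc ∫⁻ B, (psi a B k : ℝ≥0∞) ∂Measure.pi ν
      ≤ ∫⁻ B, (((crossings a B k).ncard : ℝ≥0∞) + ((crossings a B (k - 1)).ncard : ℝ≥0∞))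
        ∂Measure.pi ν := by
        apply lintegral_mono_ae
        filter_upwards [hpsi] with B hB
        have h1 : (psi a B k : ℝ≥0∞) ≤ (((crossings a B k).ncard +
          (if k = 0 then 0 else (crossings a B (k - 1)).ncard) : ℕ) : ℕ∞) := by
          exact_mod_cast hB
        refine h1.trans ?_
        rw [ENat.toENNReal_coe]
        split_ifs with h
        · simp
        · push_cast
          rfl
    _ = _ := lintegral_add_left (measurable_crossings a k) _
    _ ≤ ENNReal.ofReal (8 * D * M * n) + ENNReal.ofReal (8 * D * M * n) :=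
        add_le_add (hcross k) (hcross (k - 1))
    _ = ENNReal.ofReal (16 * D * M * n) := by
        have : 0 ≤ 8 * D * M * n := by
          have := mul_nonneg hDM (Nat.cast_nonneg (α := ℝ) n)
          nlinarith
        rw [← ENNReal.ofReal_add this this]
        congr 1
        ring

end Pool.Agent.Results.MP_a08d0a_co.SmoothedLevel
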